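import Pool.Agent.Q61.GF.Loc
import Pool.Agent.TH120.Sec.Split

/-!
# Diagonal curves over number fields: density
-/

set_option autoImplicit false
set_option maxHeartbeats 400000
set_option linter.unusedSectionVars false

namespace Pool.Agent.Q61.GF

open Pool.Agent.W620.SC Pool.Agent.W623.SecC Pool.Agent.TH120.Sec Polynomial IntermediateField
open Pool.Agent.TH377.LocG Pool.Agent.TH377.Loc Pool.Agent.TH377.NC IsDedekindDomain NumberField

universe u v w x y z

lemma irr_four {K : Type u} [Field K] (a i : K) (hi : i ^ 2 = -1) (ha : ∀ b : K, b ^ 2 ≠ a) :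
    Irreducible (X ^ 4 - C a : K[X]) := by
  have h2 : Irreducible (X ^ 2 - C a : K[X]) := X_pow_sub_C_irreducible_of_prime Nat.prime_two ha
  have h4 : Irreducible (X ^ (2 * 2) - C a : K[X]) := by
    refine X_pow_mul_sub_C_irreducible h2 ?_
    intro E _ _ x hx
    refine X_pow_sub_C_irreducible_of_prime Nat.prime_two ?_
    intro b hb
    have hint : IsIntegral K x := by
      by_contra h
      rw [minpoly.eq_zero h] at hx
      exact h2.ne_zero hx.symm
    have hn := congrArg (Algebra.norm K) hb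
    rw [map_pow] at hn
    have h3 : Algebra.norm K (AdjoinSimple.gen K x) = -a := by
      have := Algebra.PowerBasis.norm_gen_eq_coeff_zero_minpoly
        (IntermediateField.adjoin.powerBasis hint)
      rw [IntermediateField.adjoin.powerBasis_gen, IntermediateField.minpoly_gen, hx] at this
      rw [this]
      have hd : (IntermediateField.adjoin.powerBasis hint).dim = 2 := by
        rw [← PowerBasis.natDegree_minpoly, IntermediateField.adjoin.powerBasis_gen,
          IntermediateField.minpoly_gen, hx]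
        exact natDegree_X_pow_sub_C
      rw [hd]
      simp
    rw [h3] at hn
    apply ha (i * Algebra.norm K b)
    rw [mul_pow, hi, hn]
    ring
  exact h4

/-- there are many primes `v` with `N v ≡ 1` modulo the prime power `q ^ (e + 1)`, not containing
`D` -/
theorem supply_pp {K : Type u} [Field K] [NumberField K] (q e : ℕ) (hq : q.Prime) (D : 𝓞 K)
    (hD : D ≠ 0) (δ : ℝ) (hδ : 0 < δ) (hδ1 : δ ≤ 1) (ε : ℝ) (hε : 0 < ε) :
    ∃ T : Finset (HeightOneSpectrum (𝓞 K)),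
      (∀ v ∈ T, D ∉ v.asIdeal ∧ q ^ (e + 1) ∣ Ideal.absNorm v.asIdeal - 1) ∧
      ∏ v ∈ T, (1 - δ * (1 / (Ideal.absNorm v.asIdeal : ℝ) -
        1 / (Ideal.absNorm v.asIdeal : ℝ) ^ 2)) < ε := by
  classical
  have hfact : Fact q.Prime := ⟨hq⟩
  set M := q ^ (e + 1) with hM
  have hMpos : 0 < M := pow_pos hq.pos _
  -- a primitive root of unity
  have hM0 : (M : AlgebraicClosure K) ≠ 0 := Nat.cast_ne_zero.2 hMpos.ne'
  obtain ⟨ζ, hζ⟩ : ∃ ζ : AlgebraicClosure K, IsPrimitiveRoot ζ M := by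
    have : NeZero (M : AlgebraicClosure K) := ⟨hM0⟩
    exact HasEnoughRootsOfUnity.exists_primitiveRoot (AlgebraicClosure K) M
  obtain ⟨L, _, _, _, i, τ, κ, hκi, hκτ, hκs⟩ := exists_L K {ζ} (Set.finite_singleton ζ)
    AlgEquiv.refl
  obtain ⟨z, hz⟩ := hκs ζ rfl
  have hzM : z ^ M = 1 := by
    apply κ.injective
    rw [map_pow, hz, hζ.pow_eq_one, map_one]
  have hz1 : z ^ q ^ e ≠ 1 := by
    intro h
    have h1 : ζ ^ q ^ e = 1 := by
      rw [← hz, ← map_pow, h, map_one]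
    have h2 := (hζ.pow_eq_one_iff_dvd _).1 h1
    rw [hM, Nat.pow_dvd_pow_iff_le_right hq.one_lt] at h2
    omega
  have hτ : ∀ x, τ x = x := by
    intro x
    apply κ.injective
    rw [hκτ]
    rfl
  let iO : 𝓞 K →+* 𝓞 L := RingOfIntegers.mapRingHom i
  have hiO : ∀ x, ((iO x : 𝓞 L) : L) = i x := fun x => rfl
  have hiinj : Function.Injective iO := by
    intro x y hxy
    have h1 : (iO x : L) = iO y := by rw [hxy]
    rw [hiO, hiO] at h1
    exact RingOfIntegers.coe_injective (i.injective h1)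
  have hzint : IsIntegral ℤ z := by
    refine IsIntegral.of_pow hMpos ?_
    rw [hzM]
    exact isIntegral_one
  let zO : 𝓞 L := ⟨z, hzint⟩
  have hzO : ((zO : 𝓞 L) : L) = z := rfl
  have hzO1 : zO ^ q ^ e - 1 ≠ 0 := by
    intro h
    apply hz1
    have h1 : ((zO ^ q ^ e - 1 : 𝓞 L) : L) = 0 := by rw [h]; rfl
    have h2 : ((zO ^ q ^ e - 1 : 𝓞 L) : L) = z ^ q ^ e - 1 := rfl
    rw [h2] at h1
    exact sub_eq_zero.1 h1
  have hzOM : zO ^ M = 1 := by
    apply RingOfIntegers.coe_injective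
    rw [map_pow, map_one]
    exact hzM
  refine supply i τ (fun x => hτ _) (iO D * (zO ^ q ^ e - 1)) (mul_ne_zero (by
    rw [Ne, map_eq_zero_iff iO hiinj]
    exact hD) hzO1) _ ?_ δ hδ hδ1 ε hε
  intro p _ φ hφ hE v hv hnorm hψ
  rw [map_mul] at hE
  refine ⟨fun h => hE ?_, ?_⟩
  · rw [(hv D).1 h, zero_mul]
  · rw [hnorm]
    have h1 : φ zO ^ p = φ zO := by
      have h2 := hφ zO
      have h3 : τ • zO = zO := by
        apply RingOfIntegers.ext
        exact hτ z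
      rw [h3] at h2
      exact h2.symm
    have h2 : φ zO ^ M = 1 := by rw [← map_pow, hzOM, map_one]
    have h3 : φ zO ^ q ^ e ≠ 1 := by
      intro h
      apply hE
      rw [map_sub, map_one, map_pow, h, sub_self, mul_zero]
    have h4 : φ zO ≠ 0 := by
      intro h
      rw [h, zero_pow hMpos.ne'] at h2
      exact zero_ne_one h2
    have hp := (Fact.out : p.Prime)
    have h5 : φ zO ^ (p - 1) = 1 := by
      have h6 : φ zO ^ (p - 1) * φ zO = 1 * φ zO := by
        rw [← pow_succ, Nat.sub_add_cancel hp.one_lt.le, h1, one_mul]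
      exact mul_right_cancel₀ h4 h6
    have h6 : orderOf (φ zO) = M := orderOf_eq_prime_pow h3 h2
    rw [← h6]
    exact orderOf_dvd_of_pow_eq_one h5

/-- the curves `a xᴹ + b yᴹ + c zᴹ = 0` have neither points nor sections over the extensions `L` with
`D ∤ [L : K]` -/
def Empty {K : Type u} [Field K] (M D : ℕ) (a b c : K) : Prop :=
  ∀ (L : Type y) [Field L] [Algebra K L] [FiniteDimensional K L], ¬ D ∣ Module.finrank K L →
    (∀ x : Fin 3 → L, x ≠ 0 → algebraMap K L a * x 0 ^ M + algebraMap K L b * x 1 ^ M +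
      algebraMap K L c * x 2 ^ M ≠ 0) ∧
    ∀ (F : Type v) (Ω : Type w) [Field F] [Field Ω] [Algebra L F] [Algebra F Ω] [Algebra L Ω]
      [IsScalarTower L F Ω] [IsAlgClosure F Ω]
      (x : Fin 3 → F) (U : Set (ValuationSubring F)), x ≠ 0 →
      algebraMap L F (algebraMap K L a) * x 0 ^ M + algebraMap L F (algebraMap K L b) * x 1 ^ M +
        algebraMap L F (algebraMap K L c) * x 2 ^ M = 0 →
      (∀ O ∈ U, ∀ c : L, algebraMap L F c ∈ O) → IsEmpty (GSection L F Ω U)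

/-- the local theorem at a place of a number field -/
theorem empty_of_place {K : Type u} [Field K] [NumberField K] (M D : ℕ)
    (hMD : M = Nat.gcd 2 D * D) (hD : D ≠ 0) (v₀ : HeightOneSpectrum (𝓞 K)) (a b c : 𝓞 K)
    (ha : a ∈ v₀.asIdeal) (ha' : a ∉ v₀.asIdeal ^ 2) (hb : b ∉ v₀.asIdeal) (s : 𝓞 K ⧸ v₀.asIdeal)
    (hs : s * Ideal.Quotient.mk v₀.asIdeal b = Ideal.Quotient.mk v₀.asIdeal c)
    (hirr : Irreducible (X ^ M + C s : (𝓞 K ⧸ v₀.asIdeal)[X]))
    (hsep : (X ^ M + C s : (𝓞 K ⧸ v₀.asIdeal)[X]).Separable) :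
    Empty.{u, v, w, y} M D (algebraMap (𝓞 K) K a) (algebraMap (𝓞 K) K b)
      (algebraMap (𝓞 K) K c) := by
  intro L _ _ _ hL
  obtain ⟨A, _, _, _, _, j, ε, hfin, hfr, hjK, hjr, hju, hbn⟩ := local_ring v₀
  obtain ⟨ϖ, t, hϖ, ht, hat⟩ := hbn a 1 (by rwa [pow_one]) ha'
  obtain ⟨β, hβ⟩ := hju b hb
  have hjr' : ∀ z, IsLocalRing.residue A (j z) = ε (Ideal.Quotient.mk v₀.asIdeal z) := fun z =>
    congrArg (fun f : 𝓞 K →+* _ => f z) hjr
  have hjK' : ∀ z, algebraMap A K (j z) = algebraMap (𝓞 K) K z := fun z =>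
    congrArg (fun f : 𝓞 K →+* _ => f z) hjK
  have hres : IsLocalRing.residue A (j c * ((β⁻¹ : Aˣ) : A)) = ε s := by
    have h1 : IsLocalRing.residue A ((β⁻¹ : Aˣ) : A) * IsLocalRing.residue A (j b) = 1 := by
      rw [← map_mul, ← hβ, Units.inv_mul, map_one]
    have h2 : IsLocalRing.residue A (j c) = ε s * IsLocalRing.residue A (j b) := by
      rw [hjr', hjr', ← hs, map_mul]
    rw [map_mul, h2, mul_assoc, mul_comm (IsLocalRing.residue A (j b)), h1, mul_one]
  have hmap : (X ^ M + C (j c * ((β⁻¹ : Aˣ) : A)) : A[X]).map (IsLocalRing.residue A) =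
      (X ^ M + C s : (𝓞 K ⧸ v₀.asIdeal)[X]).map
        (ε : (𝓞 K ⧸ v₀.asIdeal) →+* IsLocalRing.ResidueField A) := by
    rw [Polynomial.map_add, Polynomial.map_pow, map_X, map_C, Polynomial.map_add,
      Polynomial.map_pow, map_X, map_C, hres]
    rfl
  have hbK : algebraMap (𝓞 K) K b ≠ 0 := by
    intro h
    apply hb
    rw [(map_eq_zero_iff _ (IsFractionRing.injective (𝓞 K) K)).1 h]
    exact zero_mem _
  have hβK : algebraMap A K ((β⁻¹ : Aˣ) : A) = (algebraMap (𝓞 K) K b)⁻¹ := by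
    apply eq_inv_of_mul_eq_one_left
    rw [← hjK', ← map_mul, ← hβ, Units.inv_mul, map_one]
  refine diag_of_dvr (R := A) M D hMD hD (j c * ((β⁻¹ : Aˣ) : A)) ?_ ?_ ϖ (-(t * ((β⁻¹ : Aˣ) : A))) hϖ
    ((ht.mul (Units.isUnit _)).neg) 1 _ _ _ hbK ?_ ?_ (L := L) ?_
  · rw [hmap]
    exact (MulEquiv.irreducible_iff (Polynomial.mapEquiv ε)).2 hirr
  · rw [hmap]
    exact hsep.map
  · rw [map_mul, hjK', hβK, div_eq_mul_inv]
  · rw [map_neg, map_mul, hβK, hat, Nat.cast_one, zpow_one]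
    ring
  · rw [one_mul]
    exact_mod_cast hL

/-- **Density zero**, for the exponents `M = q` (an odd prime) and `M = 4` (then `q = 2`). -/
theorem density {K : Type u} [Field K] [NumberField K] (M D q : ℕ) (hq : q.Prime)
    (h : (M = q ∧ D = q ∧ q ≠ 2) ∨ (M = 4 ∧ D = 2 ∧ q = 2)) :
    DZ 3 {f : Fin 3 → 𝓞 K | ¬ (f 0 ≠ 0 ∧ f 1 ≠ 0 ∧ f 2 ≠ 0 ∧
      Empty.{u, v, w, y} M D (algebraMap (𝓞 K) K (f 0)) (algebraMap (𝓞 K) K (f 1))
      (algebraMap (𝓞 K) K (f 2)))} := by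
  classical
  obtain ⟨e, he⟩ : ∃ e, M = q ^ (e + 1) := by
    rcases h with ⟨h1, h2, h3⟩ | ⟨h1, h2, h3⟩
    · exact ⟨0, by rw [h1, zero_add, pow_one]⟩
    · exact ⟨1, by rw [h1, h3]; norm_num⟩
  have hMD : M = Nat.gcd 2 D * D := by
    rcases h with ⟨h1, h2, h3⟩ | ⟨h1, h2, h3⟩
    · have : Nat.gcd 2 q = 1 := (Nat.coprime_primes Nat.prime_two hq).2 (Ne.symm h3)
      rw [h1, h2, this, one_mul]
    · rw [h1, h2]
      norm_num
  have hD : D ≠ 0 := by
    rcases h with ⟨h1, h2, h3⟩ | ⟨h1, h2, h3⟩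
    · rw [h2]
      exact hq.ne_zero
    · rw [h2]
      norm_num
  refine dz_of_supply 3 (fun v => (q : 𝓞 K) ∉ v.asIdeal ∧ q ^ (e + 1) ∣ Ideal.absNorm v.asIdeal - 1)
    (fun v => (Good v q)ᶜ) (1 / 8) (fun ε hε => ?_) (fun v hv => ?_) _ ?_
  · exact supply_pp q e hq (q : 𝓞 K) (Nat.cast_ne_zero.2 hq.ne_zero) (1 / 8) (by norm_num)
      (by norm_num) ε hε
  · exact bad_card v q hq ((dvd_pow_self q (Nat.succ_ne_zero e)).trans hv.2)
  · rintro f hf v ⟨hqv, hv⟩ hgood
    apply hf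
    obtain ⟨g1, g2, g3, g4⟩ := hgood
    have hmax : v.asIdeal.IsMaximal := v.isMaximal
    let _ : Field (𝓞 K ⧸ v.asIdeal) := Ideal.Quotient.field _
    have hfinq : Finite (𝓞 K ⧸ v.asIdeal) := Ideal.finiteQuotientOfFreeOfNeBot _ v.ne_bot
    have ha : f 0 ∈ v.asIdeal := Ideal.Quotient.eq_zero_iff_mem.1 g1
    have ha' : f 0 ∉ v.asIdeal ^ 2 := fun h => g2 (Ideal.Quotient.eq_zero_iff_mem.2 h)
    have hb : f 1 ∉ v.asIdeal := fun h => g3 (Ideal.Quotient.eq_zero_iff_mem.2 h)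
    set β : 𝓞 K ⧸ v.asIdeal := Ideal.Quotient.mk v.asIdeal (f 1) with hβ
    set γ : 𝓞 K ⧸ v.asIdeal := Ideal.Quotient.mk v.asIdeal (f 2) with hγ
    have hβ0 : β ≠ 0 := g3
    have g4' : ∀ r : 𝓞 K ⧸ v.asIdeal, β * r ^ q + γ ≠ 0 := g4
    have hγ0 : γ ≠ 0 := by
      have := g4' 0
      rwa [zero_pow hq.ne_zero, mul_zero, zero_add] at this
    have hf0 : f 0 ≠ 0 := fun h => ha' (by rw [h]; exact zero_mem _)
    have hf1 : f 1 ≠ 0 := fun h => hb (by rw [h]; exact zero_mem _)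
    have hf2 : f 2 ≠ 0 := by
      intro h
      apply hγ0
      rw [hγ, h, map_zero]
    have hq0 : (q : 𝓞 K ⧸ v.asIdeal) ≠ 0 := by
      intro h
      apply hqv
      rw [← Ideal.Quotient.eq_zero_iff_mem, map_natCast]
      exact h
    have hs0 : γ / β ≠ 0 := div_ne_zero hγ0 hβ0
    have hnr : ∀ r : 𝓞 K ⧸ v.asIdeal, r ^ q ≠ -(γ / β) := by
      intro r hr
      apply g4' r
      rw [hr]
      field_simp
      ring
    have hirr : Irreducible (X ^ M + C (γ / β) : (𝓞 K ⧸ v.asIdeal)[X]) := by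
      have h1 : (X ^ M + C (γ / β) : (𝓞 K ⧸ v.asIdeal)[X]) = X ^ M - C (-(γ / β)) := by
        rw [C_neg, sub_neg_eq_add]
      rw [h1]
      rcases h with ⟨e1, e2, e3⟩ | ⟨e1, e2, e3⟩
      · rw [e1]
        exact X_pow_sub_C_irreducible_of_prime hq hnr
      · rw [e1]
        obtain ⟨i, hi⟩ : ∃ i : 𝓞 K ⧸ v.asIdeal, i ^ 2 = -1 := by
          have hM4 : 4 ∣ Nat.card (𝓞 K ⧸ v.asIdeal) - 1 := by
            rw [card_residue]
            have : q ^ (e + 1) = 4 := he.symm.trans e1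
            rwa [this] at hv
          have := Fintype.ofFinite (𝓞 K ⧸ v.asIdeal)
          have h5 : IsSquare (-1 : 𝓞 K ⧸ v.asIdeal) := by
            rw [FiniteField.isSquare_neg_one_iff, ← Nat.card_eq_fintype_card]
            have hpos : 0 < Nat.card (𝓞 K ⧸ v.asIdeal) := Nat.card_pos
            omega
          obtain ⟨i, hi⟩ := h5
          exact ⟨i, by rw [sq]; exact hi.symm⟩
        refine irr_four _ i hi fun b => ?_
        have := hnr b
        rwa [e3] at this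
    have hsep : (X ^ M + C (γ / β) : (𝓞 K ⧸ v.asIdeal)[X]).Separable :=
      PerfectField.separable_of_irreducible hirr
    refine ⟨hf0, hf1, hf2, empty_of_place M D hMD hD v (f 0) (f 1) (f 2) ha ha' hb (γ / β) ?_ hirr hsep⟩
    exact div_mul_cancel₀ _ hβ0

end Pool.Agent.Q61.GF
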