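import Pool.Agent.TH377.NC.Gen

/-!
# Diagonal curves as norm-form curves: the local theorem
-/

set_option autoImplicit false
set_option maxHeartbeats 400000
set_option linter.unusedSectionVars false

namespace Pool.Agent.Q61.GF

open Pool.Agent.W620.SC Pool.Agent.W623.SecC Pool.Agent.TH120.Sec Polynomial IntermediateField
open Pool.Agent.TH377.LocG Pool.Agent.TH377.Loc Pool.Agent.TH377.NC IsDedekindDomain NumberField

universe u v w x y z

/-- the norm form of a binomial -/
lemma prod_binom {B : Type*} [Field B] [IsAlgClosed B] (M : ℕ) (hM : M ≠ 0) (s Y Z : B) :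
    ((X ^ M + C s : B[X]).roots.map fun θ => Y - θ * Z).prod = Y ^ M + s * Z ^ M := by
  have hmon : (X ^ M + C s : B[X]).Monic := monic_X_pow_add_C s hM
  have hdeg : (X ^ M + C s : B[X]).natDegree = M := natDegree_X_pow_add_C
  have hcard : Multiset.card (X ^ M + C s : B[X]).roots = M := by
    rw [← (IsAlgClosed.splits _).natDegree_eq_card_roots, hdeg]
  by_cases hZ : Z = 0
  · subst hZ
    simp only [mul_zero, sub_zero, Multiset.map_const', Multiset.prod_replicate, hcard,
      zero_pow hM, add_zero]
  · have h1 : ((X ^ M + C s : B[X]).roots.map fun θ => Y - θ * Z) =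
        ((X ^ M + C s : B[X]).roots.map fun θ => Z * (Y / Z - θ)) := by
      refine Multiset.map_congr rfl fun θ _ => ?_
      field_simp
    have h2 : ((X ^ M + C s : B[X]).roots.map fun θ => Y / Z - θ).prod =
        (X ^ M + C s : B[X]).eval (Y / Z) := by
      conv_rhs => rw [(IsAlgClosed.splits (X ^ M + C s : B[X])).eq_prod_roots_of_monic hmon]
      rw [eval_multiset_prod, Multiset.map_map]
      congr 1
      refine Multiset.map_congr rfl fun θ _ => ?_
      simp
    rw [h1, Multiset.prod_map_mul, Multiset.map_const', Multiset.prod_replicate, hcard, h2]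
    rw [eval_add, eval_pow, eval_X, eval_C, mul_add, ← mul_pow, mul_div_cancel₀ _ hZ]
    ring

/-- the norm of `x₁ - θ x₂` -/
lemma diag_prod {K : Type u} {E : Type x} {B : Type w} [Field K] [CharZero K] [Field E]
    [Algebra K E] [FiniteDimensional K E] [Field B] [Algebra K B] [IsAlgClosed B]
    (pb : PowerBasis K E) (M : ℕ) (hM : M ≠ 0) (s : K) (hmin : minpoly K pb.gen = X ^ M + C s)
    (u : Fin 3 → B) :
    ∏ σ : E →ₐ[K] B, ∑ j, σ ((![0, 1, -pb.gen] : Fin 3 → E) j) * u j =
      u 1 ^ M + algebraMap K B s * u 2 ^ M := by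
  have h1 := prod_emb pb (B := B) fun θ => u 1 - θ * u 2
  rw [hmin] at h1
  have h2 : (X ^ M + C s : K[X]).aroots B = (X ^ M + C (algebraMap K B s) : B[X]).roots := by
    rw [aroots, Polynomial.map_add, Polynomial.map_pow, map_X, map_C]
  rw [h2, prod_binom M hM] at h1
  rw [← h1]
  refine Finset.prod_congr rfl fun σ _ => ?_
  simp only [Fin.sum_univ_three, Matrix.cons_val_zero, Matrix.cons_val_one, Matrix.cons_val,
    map_zero, map_one, map_neg, zero_mul, one_mul, zero_add]
  ring

section

variable {R K : Type u} [CommRing R] [IsDomain R] [IsDiscreteValuationRing R] [Field K]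
  [Algebra R K] [IsFractionRing R K] [CharZero K]

/-- **The local theorem for diagonal curves.** -/
theorem diag_of_dvr (M D : ℕ) (hMD : M = Nat.gcd 2 D * D) (hD : D ≠ 0) (s : R)
    (hirr : Irreducible ((X ^ M + C s : R[X]).map (IsLocalRing.residue R)))
    (hsep : ((X ^ M + C s : R[X]).map (IsLocalRing.residue R)).Separable)
    (ϖ0 t0 : R) (hϖ0 : Irreducible ϖ0) (ht0 : IsUnit t0) (m : ℤ) (a b c : K) (hb : b ≠ 0)
    (hs : algebraMap R K s = c / b) (ha : -a / b = algebraMap R K t0 * algebraMap R K ϖ0 ^ m)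
    {L : Type y} [Field L] [Algebra K L] [FiniteDimensional K L]
    (hm : ¬ (D : ℤ) ∣ m * Module.finrank K L) :
    (∀ x : Fin 3 → L, x ≠ 0 → algebraMap K L a * x 0 ^ M + algebraMap K L b * x 1 ^ M +
      algebraMap K L c * x 2 ^ M ≠ 0) ∧
    ∀ (F : Type v) (Ω : Type w) [Field F] [Field Ω] [Algebra L F] [Algebra F Ω] [Algebra L Ω]
      [IsScalarTower L F Ω] [IsAlgClosure F Ω]
      (x : Fin 3 → F) (U : Set (ValuationSubring F)), x ≠ 0 →
      algebraMap L F (algebraMap K L a) * x 0 ^ M + algebraMap L F (algebraMap K L b) * x 1 ^ M +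
        algebraMap L F (algebraMap K L c) * x 2 ^ M = 0 →
      (∀ O ∈ U, ∀ c : L, algebraMap L F c ∈ O) → IsEmpty (GSection L F Ω U) := by
  classical
  have hM0 : M ≠ 0 := by
    rw [hMD]
    exact mul_ne_zero (Nat.gcd_pos_of_pos_left _ two_pos).ne' hD
  set g : R[X] := X ^ M + C s with hg
  have hgm : g.Monic := monic_X_pow_add_C s hM0
  have hgd : g.natDegree = M := natDegree_X_pow_add_C
  have hgirr : Irreducible g := Monic.irreducible_of_irreducible_map _ _ hgm hirr
  have hgKirr : Irreducible (g.map (algebraMap R K)) :=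
    (Monic.irreducible_iff_irreducible_map_fraction_map hgm).1 hgirr
  have hgK : g.map (algebraMap R K) = X ^ M + C (c / b) := by
    rw [hg, Polynomial.map_add, Polynomial.map_pow, map_X, map_C, hs]
  have hfact : Fact (Irreducible (g.map (algebraMap R K))) := ⟨hgKirr⟩
  let E := AdjoinRoot (g.map (algebraMap R K))
  let pb : PowerBasis K E := AdjoinRoot.powerBasis hgKirr.ne_zero
  have hpbgen : pb.gen = AdjoinRoot.root (g.map (algebraMap R K)) := rfl
  have hfin : FiniteDimensional K E := pb.finite
  have hmin : minpoly K pb.gen = g.map (algebraMap R K) := by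
    rw [hpbgen, AdjoinRoot.minpoly_root hgKirr.ne_zero, (hgm.map _).leadingCoeff, inv_one,
      map_one, mul_one]
  have hrank : Module.finrank K E = M := by
    rw [pb.finrank, ← pb.natDegree_minpoly, hmin, hgm.natDegree_map, hgd]
  have hσ : FactorDiv (Nat.gcd 2 D * D) (g.map (IsLocalRing.residue R)) := by
    intro q hq hqg
    have h1 : Associated q (g.map (IsLocalRing.residue R)) :=
      (hq.dvd_irreducible_iff_associated hirr).1 hqg
    rw [Polynomial.natDegree_eq_of_degree_eq (Polynomial.degree_eq_degree_of_associated h1),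
      hgm.natDegree_map, hgd, hMD]
  have hDM : D ∣ M := hMD ▸ Dvd.intro_left _ rfl
  have hmin' : minpoly K pb.gen = X ^ M + C (c / b) := hmin.trans hgK
  have hcross : ∀ σ τ : E →ₐ[K] AlgebraicClosure K, σ ≠ τ → MvPolynomial.aeval
      (crossProduct (fun j => σ ((![0, 1, -pb.gen] : Fin 3 → E) j))
        (fun j => τ ((![0, 1, -pb.gen] : Fin 3 → E) j))) (MvPolynomial.X 0 :
          MvPolynomial (Fin 3) K) ≠ 0 := by
    intro σ τ hστ h
    apply hστ
    apply pb.algHom_ext
    rw [MvPolynomial.aeval_X] at h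
    simp only [crossProduct, LinearMap.mk₂_apply, Matrix.cons_val_zero, Matrix.cons_val_one,
      Matrix.cons_val, map_one, map_neg, one_mul, mul_one, neg_mul, sub_neg_eq_add] at h
    linear_combination h
  obtain ⟨key1, key2⟩ := gen_both.{u, v, w, u, y, u} (L := L) D hD pb g hgm hmin.symm hsep hσ ϖ0 t0
    hϖ0 ht0 m hm (-a / b) ha M 1 hDM (by rw [mul_one, hrank]) ![0, 1, -pb.gen] (MvPolynomial.X 0)
    (MvPolynomial.isHomogeneous_X _ _) hcross
  refine ⟨?_, ?_⟩
  · intro x hx h
    apply key1 x hx
    have hst : IsScalarTower K L (AlgebraicClosure L) := inferInstance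
    have hcl : IsAlgClosed (AlgebraicClosure L) := inferInstance
    have h1 := diag_prod (B := AlgebraicClosure L) pb M hM0 (c / b) hmin'
      (fun j => algebraMap L (AlgebraicClosure L) (x j))
    rw [h1, MvPolynomial.aeval_X]
    rw [IsScalarTower.algebraMap_apply K L (AlgebraicClosure L) (c / b),
      IsScalarTower.algebraMap_apply K L (AlgebraicClosure L) (-a / b), ← map_pow, ← map_pow,
      ← map_mul, ← map_add, ← map_pow, ← map_mul]
    congr 1
    have hb' : algebraMap K L b ≠ 0 := (_root_.map_ne_zero _).2 hb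
    rw [map_div₀, map_div₀, map_neg]
    field_simp
    linear_combination h
  · intro F Ω _ _ _ _ _ _ _ x U hx h hU
    let _ : Algebra K Ω := ((algebraMap L Ω).comp (algebraMap K L)).toAlgebra
    have hst : IsScalarTower K L Ω := IsScalarTower.of_algebraMap_eq (fun _ => rfl)
    have hcl : IsAlgClosed Ω := IsAlgClosure.isAlgClosed F
    refine key2 F Ω x U hx ?_ hU
    have h1 := diag_prod (B := Ω) pb M hM0 (c / b) hmin' (fun j => algebraMap F Ω (x j))
    rw [h1, MvPolynomial.aeval_X]
    rw [IsScalarTower.algebraMap_apply K L Ω (c / b),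
      IsScalarTower.algebraMap_apply K L Ω (-a / b), IsScalarTower.algebraMap_apply L F Ω,
      IsScalarTower.algebraMap_apply L F Ω, ← map_pow, ← map_pow,
      ← map_mul, ← map_add, ← map_pow, ← map_mul]
    congr 1
    have hb' : algebraMap L F (algebraMap K L b) ≠ 0 :=
      (_root_.map_ne_zero _).2 ((_root_.map_ne_zero _).2 hb)
    rw [map_div₀, map_div₀, map_div₀, map_div₀, map_neg, map_neg]
    field_simp
    linear_combination h

end

end Pool.Agent.Q61.GF
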